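import Pool.Agent.Lib.MP_d97911_gt.Basis
import Pool.Agent.Lib.MP_d97911_gt.Zero

namespace Pool.Agent.Results.MP_d97911_gt.ArcSlide

open Pool.Agent.Lib.MP_d97911_gt

/-- One partial open book with two arc bases `{a₀, a₁}`, `{a₀, a₂}` related by an arc-slide such
that `AT = 0` for the first basis and `AT ≠ 0` for the second. -/
theorem result : ∃ (O : POB ℕ) (Z : Arcs ℕ 3), O.Valid ∧ Z.Valid O ∧ Z.Cobound O ∧
    (Z.sub ![0, 1]).Valid O ∧ (Z.sub ![0, 1]).IsBasis O ∧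
    (Z.sub ![0, 2]).Valid O ∧ (Z.sub ![0, 2]).IsBasis O ∧
    ∃ z z', IsEH O (Z.sub ![0, 1]) z ∧ IsEH O (Z.sub ![0, 2]) z' ∧
      (∀ cnt, Diagram.CountsRectangles cnt → Diagram.AT cnt z = 0) ∧
      ∀ cnt, Diagram.AT cnt z' ≠ 0 :=
  ⟨ob, arcs, ob_valid, arcs_valid, arcs_cobound, z12_valid, z12_basis, z13_valid, z13_basis,
    eh12, eh13, isEH12, isEH13, AT12, AT13⟩

end Pool.Agent.Results.MP_d97911_gt.ArcSlide
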